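import Pool.Agent.Helper66_KF.Stmts
import Pool.Agent.Helper20_PP.Nls
import Pool.Agent.Helper50_PP.Ffa
import Pool.Agent.Helper74_D2.Bld

/-!
# Squad KF, module K4: a block with Klein four defect groups has four characters
-/

open scoped BigOperators

noncomputable section

namespace Pool.Agent.PP.KF.H69

open Pool.Agent.Helper51_AWC Pool.Agent.Helper79_WRA Pool.Agent.PP Pool.Agent.PP.KF

attribute [local instance] Ideal.Quotient.field

theorem subCl_V4 : DF.SubCl V4 := by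
  intro Q R _ _ j hj hR
  obtain ⟨k, hk⟩ := hR
  exact ⟨k.comp j, hk.comp hj⟩

/-- the order is at most four -/
theorem V4_card {Q : Type} [Group Q] (h : V4 Q) : Nat.card Q ≤ 4 := by
  obtain ⟨j, hj⟩ := h
  have h1 := Nat.card_le_card_of_injective j hj
  have h2 : Nat.card (Multiplicative (ZMod 2) × Multiplicative (ZMod 2)) = 4 := by
    rw [Nat.card_prod]
    simp [Nat.card_eq_fintype_card, ZMod.card]
  omega

theorem V4_sq {Q : Type} [Group Q] (h : V4 Q) (x : Q) : x * x = 1 := by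
  obtain ⟨j, hj⟩ := h
  apply hj
  rw [map_mul, map_one]
  generalize j x = y
  revert y
  decide

theorem V4_comm {Q : Type} [Group Q] (h : V4 Q) (x y : Q) : x * y = y * x := by
  obtain ⟨j, hj⟩ := h
  apply hj
  rw [map_mul, map_mul, mul_comm]

theorem bd8 {F X : Type} [Field F] [Group X] [Finite X] {e : X → F}
    (h : DF.DfE 2 V4 e ⊤) : Bd8 e := by
  intro g hg h8
  haveI : Fact (Nat.Prime 2) := ⟨Nat.prime_two⟩
  obtain ⟨Q, hQ⟩ := Sylow.exists_subgroup_card_pow_prime (G := Subgroup.centralizer ({g} : Set X))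
    2 (n := 3) (by norm_num; exact h8)
  have hc : Nat.card (Q.map (Subgroup.centralizer ({g} : Set X)).subtype) = 2 ^ 3 := by
    rw [← hQ]
    exact (Nat.card_congr (Q.equivMapOfInjective _ (Subgroup.subtype_injective _)).toEquiv).symm
  have h1 := h (Q.map (Subgroup.centralizer ({g} : Set X)).subtype) le_top
    (IsPGroup.of_card hc) ⟨g, by
      rw [Subgroup.mem_centralizer_iff]
      rintro _ ⟨q, _, rfl⟩
      exact Subgroup.mem_centralizer_singleton_iff.1 q.2, hg⟩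
  have h2 := V4_card h1
  omega

/-- the restriction to the centraliser of an involution -/
theorem idem_cu {F X : Type} [Field F] (hF : GoodF 2 F) [Group X] [Finite X] {e : X → F}
    (he : IsIdem e) {u : X} (hu : u * u = 1) : IsIdem (fun t : Cu u => e t) := by
  have hp : IsPGroup 2 (Subgroup.zpowers u) := by
    rintro ⟨x, k, rfl⟩
    refine ⟨1, Subtype.ext ?_⟩
    change ((u ^ k) ^ 2 ^ 1 : X) = 1
    rw [pow_one, ← zpow_natCast, ← zpow_mul, mul_comm, zpow_mul, zpow_natCast, pow_two, hu,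
      one_zpow]
  have hc : Subgroup.centralizer (Subgroup.zpowers u : Set X) ≤ Cu u := by
    refine Subgroup.centralizer_le ?_
    rw [Set.singleton_subset_iff]
    exact Subgroup.mem_zpowers u
  have hc' : Cu u ≤ Subgroup.centralizer (Subgroup.zpowers u : Set X) := by
    intro x hx
    rw [Subgroup.mem_centralizer_iff]
    rintro _ ⟨k, rfl⟩
    have : Commute x u := Subgroup.mem_centralizer_singleton_iff.1 hx
    exact (this.zpow_right k).eq.symm
  have hn : Cu u ≤ Subgroup.normalizer (Subgroup.zpowers u : Set X) :=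
    hc'.trans (Subgroup.centralizer_le_normalizer _)
  have h := (H20.brm 2 F hF X (Subgroup.zpowers u) (Cu u) hp hc hn).2.2 e he
  have h2 : (fun t : Cu u => br (Subgroup.zpowers u) e t) = fun t : Cu u => e t := by
    funext t
    exact H66.br_of_mem (hc' t.2)
  rwa [h2] at h

/-- a block below an idempotent which does not vanish at a given element -/
theorem exists_blk {F X : Type} [Field F] [Group X] [Finite X] {e : X → F} (he : IsIdem e) {g : X}
    (hg : e g ≠ 0) : ∃ b : X → F, IsBlk b ∧ mulF e b = b ∧ b g ≠ 0 := by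
  obtain ⟨m, f, hf, _, hs⟩ := CD2.H74.dec e he
  by_contra hcon
  push Not at hcon
  apply hg
  rw [← hs, Finset.sum_apply]
  exact Finset.sum_eq_zero fun t _ => hcon (f t) (hf t).1 (hf t).2

theorem df_cu {F X : Type} [Field F] (hF : GoodF 2 F) [Group X] [Finite X] {e : X → F}
    (he : IsIdem e) (h : DF.DfE 2 V4 e ⊤) {u : X} (hu : u * u = 1) {b : Cu u → F} (hb : IsBlk b)
    (hm : mulF (fun t : Cu u => e t) b = b) : DF.DfE 2 V4 b ⊤ :=
  DF.DfE.le hF (idem_cu hF he hu).1 hb.1.1 hm (h.sub subCl_V4 le_top)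

theorem k4 (st1 : St1Stmt) (st2 : St2Stmt) (lk : LkStmt) : K4Stmt := by
  intro M _ hM G _ _ e he
  have hF : GoodF 2 (FF M) := H50.fld 2 Nat.prime_two M hM
  obtain ⟨V, hV, g, hgV, hg⟩ := he.ex
  haveI : Fact (Nat.Prime 2) := ⟨Nat.prime_two⟩
  have hV4 : V4 V := he.df V le_top (IsPGroup.of_card (n := 2) (by rw [hV]; norm_num)) ⟨g, hgV, hg⟩
  have hsq : ∀ x ∈ V, x * x = 1 := fun x hx => congrArg Subtype.val (V4_sq hV4 ⟨x, hx⟩)
  have hcm : ∀ x ∈ V, ∀ y ∈ V, x * y = y * x := fun x hx y hy =>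
    congrArg Subtype.val (V4_comm hV4 ⟨x, hx⟩ ⟨y, hy⟩)
  obtain ⟨u, huV, hu1⟩ : ∃ u ∈ V, u ≠ 1 := by
    by_contra hcon
    push Not at hcon
    have : V = ⊥ := (Subgroup.eq_bot_iff_forall V).2 hcon
    rw [this, Subgroup.card_bot] at hV
    omega
  obtain ⟨v, hvV, hv1, hvu⟩ : ∃ v ∈ V, v ≠ 1 ∧ v ≠ u := by
    by_contra hcon
    push Not at hcon
    have h1 : V ≤ Subgroup.zpowers u := by
      intro x hx
      by_cases hx1 : x = 1
      · rw [hx1]; exact Subgroup.one_mem _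
      · rw [hcon x hx hx1]; exact Subgroup.mem_zpowers u
    have h2 := Subgroup.card_le_of_le h1
    rw [Nat.card_zpowers, hV] at h2
    have h3 : orderOf u ≤ 2 := orderOf_le_of_pow_eq_one (by norm_num) (by
      rw [pow_two]; exact hsq u huV)
    omega
  have hgu : g ∈ Cu u := Subgroup.mem_centralizer_singleton_iff.2
    (Subgroup.mem_centralizer_iff.1 hgV u huV).symm
  have hvu' : v ∈ Cu u := Subgroup.mem_centralizer_singleton_iff.2 (hcm v hvV u huV)
  have huu : u ∈ Cu u := Subgroup.mem_centralizer_singleton_iff.2 rfl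
  have hIu : Inv2 u := ⟨hsq u huV, hu1⟩
  -- the block `β` of the centraliser of `u`
  have hf := idem_cu hF he.blk.1 (hsq u huV)
  obtain ⟨β, hβ, hβe, hβg⟩ := exists_blk hf (g := ⟨g, hgu⟩) hg
  have hdβ := df_cu hF he.blk.1 he.df (hsq u huV) hβ hβe
  -- the block `b` of the centraliser of `v`
  have hIv : Inv2 (⟨v, hvu'⟩ : Cu u) :=
    ⟨Subtype.ext (hsq v hvV), fun h => hv1 (congrArg Subtype.val h)⟩
  have hgv : (⟨g, hgu⟩ : Cu u) ∈ Cu (⟨v, hvu'⟩ : Cu u) :=
    Subgroup.mem_centralizer_singleton_iff.2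
      (Subtype.ext (Subgroup.mem_centralizer_iff.1 hgV v hvV).symm)
  have hfv := idem_cu hF hβ.1 hIv.sq
  obtain ⟨b, hb, hbβ, hbg⟩ := exists_blk hfv (g := ⟨⟨g, hgu⟩, hgv⟩) hβg
  have hdb := df_cu hF hβ.1 hdβ hIv.sq hb hbβ
  have huv' : (⟨u, huu⟩ : Cu u) ∈ Cu (⟨v, hvu'⟩ : Cu u) :=
    Subgroup.mem_centralizer_singleton_iff.2 (Subtype.ext (hcm u huV v hvV))
  have hvv' : (⟨v, hvu'⟩ : Cu u) ∈ Cu (⟨v, hvu'⟩ : Cu u) :=
    Subgroup.mem_centralizer_singleton_iff.2 rfl
  have hne : (⟨u, huu⟩ : Cu u) ≠ ⟨v, hvu'⟩ := fun h => hvu (congrArg Subtype.val h).symm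
  have hIu' : Inv2 (⟨u, huu⟩ : Cu u) :=
    ⟨Subtype.ext (hsq u huV), fun h => hu1 (congrArg Subtype.val h)⟩
  have huc : (⟨u, huu⟩ : Cu u) ∈ Subgroup.center (Cu u) := by
    rw [Subgroup.mem_center_iff]
    intro x
    exact Subtype.ext (Subgroup.mem_centralizer_singleton_iff.1 x.2)
  have hb1 : ∃ a', Hb M b a' := by
    refine st1 M hM (Cu (⟨v, hvu'⟩ : Cu u)) ⟨⟨u, huu⟩, huv'⟩ ⟨⟨v, hvu'⟩, hvv'⟩ ?_ ?_ ?_ ?_ ?_ b hb
      (bd8 hdb)
    · exact ⟨Subtype.ext hIu'.sq, fun h => hIu'.ne (congrArg Subtype.val h)⟩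
    · exact ⟨Subtype.ext hIv.sq, fun h => hIv.ne (congrArg Subtype.val h)⟩
    · exact fun h => hne (congrArg Subtype.val h)
    · rw [Subgroup.mem_center_iff]
      intro x
      exact Subtype.ext (Subgroup.mem_center_iff.1 huc x)
    · rw [Subgroup.mem_center_iff]
      intro x
      exact Subtype.ext (Subgroup.mem_centralizer_singleton_iff.1 x.2)
  obtain ⟨a, ha⟩ := st2 M hM (Cu u) ⟨u, huu⟩ ⟨v, hvu'⟩ hIu' hIv hne huc β hβ (bd8 hdβ) b hb hbβ hb1
  exact (lk M hM G e he.blk (bd8 he.df) u hIu β hβ hβe a ha).1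

end Pool.Agent.PP.KF.H69
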